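import Pool.Agent.helper84.NR.Spec

set_option autoImplicit false

namespace Pool.Agent.helper84.NR

open scoped Classical
open Finset

theorem PCF (hIDX : IDX_stmt) (hEDG : EDG_stmt) : PCF_stmt := by
  intro V F M x y f hx hy
  by_cases hxy : x = y
  · subst hxy
    refine ⟨0, fun _ => x, rfl, rfl, ?_, ?_, ?_⟩
    · intro i j hi hj _
      omega
    · intro i hi
      omega
    · intro g i j hij hj _ _ k hik hkj
      omega
  by_cases hadj : Adj M.toCyc x y
  · refine ⟨1, fun i => if i = 0 then x else y, by simp, by simp, ?_, ?_, ?_⟩
    · intro i j hi hj h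
      by_cases hi0 : i = 0
      · by_cases hj0 : j = 0
        · omega
        · simp only [hi0, hj0, if_true, if_false] at h
          exact absurd h hxy
      · by_cases hj0 : j = 0
        · simp only [hi0, hj0, if_true, if_false] at h
          exact absurd h.symm hxy
        · omega
    · intro i hi
      have hi0 : i = 0 := by omega
      subst hi0
      simpa using hadj
    · intro g i j hij hj hgi hgj k hik hkj
      have hi0 : i = 0 := by omega
      have hj1 : j = 1 := by omega
      have hk0 : k = 0 := by omega
      subst hi0 hj1 hk0
      have h1 : OnV M.toCyc g x := by simpa using hgi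
      have h2 : OnV M.toCyc g y := by simpa using hgj
      have := (hEDG V F M).2 g x y hadj h1 h2
      simpa using this
  · obtain ⟨k0, hk0⟩ := hx
    obtain ⟨h1, h2, h3, h4, h5⟩ := hIDX V F M.toCyc f k0
    obtain ⟨b, hb, hby⟩ := h2 y hy
    refine ⟨b, fun i => M.bd f (k0 + i), hk0, hby, ?_, ?_, ?_⟩
    · intro i j hi hj h
      exact h1 i j (by omega) (by omega) h
    · intro i hi
      exact ⟨f, k0 + i, rfl⟩
    · intro g i j hij hj hgi hgj k hik hkj
      by_cases hgf : g = f
      · subst hgf
        exact ⟨k0 + k, rfl⟩
      · have hne : M.bd f (k0 + i) ≠ M.bd f (k0 + j) := by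
          intro h
          have := h1 i j (by omega) (by omega) h
          omega
        obtain ⟨e1, e2, -⟩ := M.poly f g (Ne.symm hgf) _ _ hne ⟨_, rfl⟩ ⟨_, rfl⟩ hgi hgj
        rcases h4 i j (by omega) (by omega) e1 with h | ⟨h, h'⟩
        · have hk : k = i := by omega
          subst hk
          subst h
          exact e2
        · exfalso
          apply hadj
          have hjb : j = b := by omega
          subst h
          subst hjb
          refine ⟨f, ?_⟩
          have e3 : M.bd f (k0 + 0) = x := hk0
          rw [e3, hby] at e1
          exact e1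

end Pool.Agent.helper84.NR
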